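import Pool.Agent.W123.RU.Poly

set_option autoImplicit false

/-!
# The polynomials `X ^ 3 + k` for `k` not a cube
-/

namespace Pool.Agent.Y175.PW

open Polynomial

/-- the polynomial `X ^ 3 + k` -/
noncomputable def cub (k : ℤ) : ℤ[X] := X ^ 3 + C k

lemma cub_eval (k m : ℤ) : (cub k).eval m = m ^ 3 + k := by
  simp [cub]

lemma cub_monic (k : ℤ) : (cub k).Monic := by
  unfold cub
  exact monic_X_pow_add_C k (by norm_num)

lemma cub_deg (k : ℤ) : (cub k).natDegree = 3 := by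
  unfold cub
  exact natDegree_X_pow_add_C

lemma rat_cube {k : ℤ} (hk : ∀ a : ℤ, k ≠ a ^ 3) (x : ℚ) : x ^ 3 + (k : ℚ) ≠ 0 := by
  intro h
  have h1 : x ^ 3 = ((-k : ℤ) : ℚ) := by push_cast; linarith
  have h2 : IsIntegral ℤ (x ^ 3) := by
    rw [h1]
    exact isIntegral_algebraMap (R := ℤ) (A := ℚ) (x := -k)
  obtain ⟨y, hy⟩ := IsIntegrallyClosed.exists_algebraMap_eq_of_isIntegral_pow (R := ℤ) (K := ℚ)
    (by norm_num : 0 < 3) h2
  have hy' : (y : ℚ) = x := by simpa using hy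
  rw [← hy'] at h1
  have h3 : y ^ 3 = -k := by exact_mod_cast h1
  apply hk (-y)
  rw [Odd.neg_pow (by decide), h3]
  ring

lemma cub_irr {k : ℤ} (hk : ∀ a : ℤ, k ≠ a ^ 3) : Irreducible (cub k) := by
  rw [Polynomial.IsPrimitive.Int.irreducible_iff_irreducible_map_cast (cub_monic k).isPrimitive]
  have hmap : (cub k).map (Int.castRingHom ℚ) = X ^ 3 + C (k : ℚ) := by
    unfold cub
    simp
  rw [hmap]
  apply Polynomial.irreducible_of_degree_le_three_of_not_isRoot
  · rw [natDegree_X_pow_add_C]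
    decide
  · intro x hx
    rw [IsRoot.def] at hx
    simp only [eval_add, eval_C, eval_pow, eval_X] at hx
    exact rat_cube hk x hx

lemma cub_adm (k : ℤ) (p : ℕ) (hp : p.Prime) : ∃ m : ℕ, ¬ (p : ℤ) ∣ (m : ℤ) ^ 3 + k := by
  by_cases h : (p : ℤ) ∣ k
  · refine ⟨1, fun h1 => ?_⟩
    have h2 : (p : ℤ) ∣ 1 := by
      have := dvd_sub h1 h
      simpa using this
    have h3 : p ∣ 1 := by exact_mod_cast h2
    exact hp.one_lt.ne' (Nat.dvd_one.1 h3)
  · refine ⟨0, fun h1 => h ?_⟩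
    simpa using h1

/-- the system consisting of `X ^ 3 + k` -/
lemma sys_cub {k : ℤ} (hk : ∀ a : ℤ, k ≠ a ^ 3) :
    Pool.Agent.W123.RU.Poly.Sys (fun _ : Fin 1 => cub k) where
  irr := fun _ => cub_irr hk
  deg := fun _ => by rw [cub_deg]; norm_num
  lead := fun _ => by rw [(cub_monic k).leadingCoeff]; norm_num
  inj := Function.injective_of_subsingleton _
  adm := fun p hp => by
    obtain ⟨m, hm⟩ := cub_adm k p hp
    refine ⟨m, fun _ => ?_⟩
    rw [cub_eval]
    exact hm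

end Pool.Agent.Y175.PW
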