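import Pool.Agent.Y871.AP.Main

set_option autoImplicit false

/-!
# Almost prime values of one polynomial: gap law, Poisson law, density in all windows

The general theorems are `gap_poly` (`Pool.Agent.Y871.AP`), `poisson_all` and `exact_poly`
(`Pool.Agent.TH464.PO`); here they are stated for the values `v m` of one polynomial of degree `d`.
-/

namespace Pool.Agent.Y175.PW

open Finset Filter Polynomial

/-- `v m` has at most `d r` prime factors (with multiplicity), all of them larger than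
`X ^ (1 / r)`. -/
def Good (v : ℕ → ℤ) (d r X m : ℕ) : Prop :=
  (v m).natAbs.primeFactorsList.length ≤ d * r ∧
    ∀ p : ℕ, p.Prime → (p : ℤ) ∣ v m → (X : ℝ) ^ (1 / (r : ℝ)) < (p : ℝ)

open Classical in
/-- The number of the good `m` in `(a, b]`. -/
noncomputable def Cnt (v : ℕ → ℤ) (d r X a b : ℕ) : ℕ :=
  ((Finset.Ioc a b).filter (fun m => Good v d r X m)).card

/-- The number of the residue classes `m` mod `p` with `p ∣ v m`. -/
def omega (v : ℕ → ℤ) (p : ℕ) : ℕ := ((Finset.range p).filter (fun m : ℕ => (p : ℤ) ∣ v m)).card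

/-- The sieve density: the product of `1 - omega v p / p` over the primes `p ≤ X ^ (1 / r)`. -/
noncomputable def V (v : ℕ → ℤ) (r X : ℕ) : ℝ :=
  ∏ p ∈ (Finset.range (⌊(X : ℝ) ^ (1 / (r : ℝ))⌋₊ + 1)).filter Nat.Prime, (1 - (omega v p : ℝ) / p)

open Classical in
/-- The number of the good `b` in `(X, X + Y]` with fewer than `k` good integers in `[b - T, b)`: the
distance of `b` to its `k`-th good predecessor is larger than `T`. -/
noncomputable def Far (v : ℕ → ℤ) (d r k T X Y : ℕ) : ℕ :=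
  ((Finset.Ioc X (X + Y)).filter (fun b => Good v d r X b ∧
    ((Finset.Ico (b - T) b).filter (fun m => Good v d r X m)).card < k)).card

/-- The Poisson probability of `j` for the mean `x`. -/
noncomputable def poisson (x : ℝ) (j : ℕ) : ℝ := Real.exp (-x) * x ^ j / j.factorial

/-- All windows around `n` inside `(X, X + Y]` of length at least `K / V` have the density `V` up to
`ε`. -/
def AllWindows (v : ℕ → ℤ) (d r : ℕ) (K ε : ℝ) (X Y n : ℕ) : Prop :=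
  ∀ a b : ℕ, X ≤ a → a < n → n ≤ b → b ≤ X + Y → K ≤ ((b : ℝ) - a) * V v r X →
    |(Cnt v d r X a b : ℝ) - (b - a) * V v r X| ≤ ε * ((b - a) * V v r X)

open Pool.Agent.Y871.AP Pool.Agent.TH464.PO Pool.Agent.W123.RU.Poly Pool.Agent.W123.RP
open Pool.Agent.H373R2.T7

/-- The values `v m` are those of an irreducible polynomial of degree `d` with positive leading
coefficient and without fixed prime divisor. -/
structure Vals (v : ℕ → ℤ) (d : ℕ) (P : ℤ[X]) : Prop where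
  irr : Irreducible P
  deg : P.natDegree = d
  pos : 0 < d
  lead : 0 < P.leadingCoeff
  val : ∀ m : ℕ, P.eval (m : ℤ) = v m
  adm : ∀ p : ℕ, p.Prime → ∃ m : ℕ, ¬ (p : ℤ) ∣ v m

lemma Vals.sys {v : ℕ → ℤ} {d : ℕ} {P : ℤ[X]} (h : Vals v d P) : Sys (fun _ : Fin 1 => P) where
  irr := fun _ => h.irr
  deg := fun _ => by rw [h.deg]; exact h.pos
  lead := fun _ => h.lead
  inj := Function.injective_of_subsingleton _
  adm := fun p hp => by
    obtain ⟨m, hm⟩ := h.adm p hp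
    exact ⟨m, fun _ => by rw [h.val]; exact hm⟩

lemma Vals.noTr {v : ℕ → ℤ} {d : ℕ} {P : ℤ[X]} (h : Vals v d P) : NoTr (fun _ : Fin 1 => P) :=
  noTr_of _ (fun _ => by rw [h.deg]; exact h.pos)
    (fun i j hij => absurd (Subsingleton.elim i j) hij)

lemma Vals.good {v : ℕ → ℤ} {d : ℕ} {P : ℤ[X]} (h : Vals v d P) (r X m : ℕ) :
    AP (fun _ : Fin 1 => P) r X m ↔ Good v d r X m := by
  unfold AP Good
  beta_reduce
  rw [h.val, h.deg, mul_comm r d]
  exact ⟨fun h1 => h1 0, fun h1 _ => h1⟩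

open Classical in
lemma Vals.V_eq {v : ℕ → ℤ} {d : ℕ} {P : ℤ[X]} (h : Vals v d P) (r X : ℕ) :
    Vq (Q (fun _ : Fin 1 => P)) ⌊(X : ℝ) ^ (1 / (r : ℝ))⌋₊ = V v r X := by
  rw [Pool.Agent.Y871.AP.V_eq (fun _ : Fin 1 => P) _ (omega v) ?_]
  · rfl
  · intro p
    unfold omega nuB
    apply congrArg
    ext m
    simp only [mem_filter]
    have : (p : ℤ) ∣ v m ↔ Q (fun _ : Fin 1 => P) p m := by
      unfold Q
      rw [← h.val]
      exact ⟨fun h1 => ⟨0, h1⟩, fun ⟨_, h1⟩ => h1⟩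
    rw [this]

open Classical in
/-- **The gap law.** -/
theorem gap_law {v : ℕ → ℤ} {d : ℕ} {P : ℤ[X]} (h : Vals v d P) (θ : ℝ) (hθ : 0 < θ) (k0 : ℕ)
    (x0 ε : ℝ) (hε : 0 < ε) :
    ∃ r0 : ℕ, ∀ r : ℕ, r0 ≤ r → ∀ᶠ X : ℕ in atTop, ∀ Y : ℕ, (X : ℝ) ^ θ ≤ Y → Y ≤ X →
      ∀ k T : ℕ, (k ≤ k0 ∨ T * V v r X ≤ x0) →
        |(Far v d r k T X Y : ℝ) - Y * V v r X * ∑ j ∈ Finset.range k, poisson (T * V v r X) j| ≤
          ε * (Y * V v r X) := by
  obtain ⟨r0, h0⟩ := gap_poly (fun _ : Fin 1 => P) h.sys h.noTr θ hθ k0 x0 ε hε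
  refine ⟨max r0 1, ?_⟩
  intro r hr
  filter_upwards [h0 r ((le_max_left _ _).trans hr), sf_AP _ h.sys r ((le_max_right _ _).trans hr)]
    with X hX hap
  intro Y hXY hYX k T hkT
  rw [h.V_eq] at hX
  have h1 := hX Y hXY k T hkT
  have hG : ∀ m : ℕ, m ≤ 3 * X →
      (Sf (Q (fun _ : Fin 1 => P)) ⌊(X : ℝ) ^ (1 / (r : ℝ))⌋₊ m ↔ Good v d r X m) :=
    fun m hm => (hap m hm).trans (h.good r X m)
  have hN : Far v d r k T X Y = Pk (Sf (Q (fun _ : Fin 1 => P)) ⌊(X : ℝ) ^ (1 / (r : ℝ))⌋₊) k T X Y := by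
    unfold Far Pk
    congr 1
    apply Finset.filter_congr
    intro b hb
    rw [mem_Ioc] at hb
    have e2 : (Finset.Ico (b - T) b).filter (fun m => Good v d r X m) =
        (Finset.Ico (b - T) b).filter (Sf (Q (fun _ : Fin 1 => P)) ⌊(X : ℝ) ^ (1 / (r : ℝ))⌋₊) := by
      apply Finset.filter_congr
      intro m hm
      rw [mem_Ico] at hm
      exact (hG m (by omega)).symm
    rw [hG b (by omega), e2]
  rw [hN]
  exact h1


open Classical in
lemma cnt_eq {v : ℕ → ℤ} {d : ℕ} {P : ℤ[X]} {r X : ℕ}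
    (hG : ∀ m : ℕ, m ≤ 3 * X →
      (Sf (Q (fun _ : Fin 1 => P)) ⌊(X : ℝ) ^ (1 / (r : ℝ))⌋₊ m ↔ Good v d r X m))
    (a b : ℕ) (hb : b ≤ 3 * X) :
    Cc (Sf (Q (fun _ : Fin 1 => P)) ⌊(X : ℝ) ^ (1 / (r : ℝ))⌋₊) a b = Cnt v d r X a b := by
  unfold Cnt Cc
  congr 1
  ext m
  rw [mem_filter, mem_filter, mem_Ioc]
  constructor
  · rintro ⟨c, e⟩
    exact ⟨c, (hG m (by omega)).1 e⟩
  · rintro ⟨c, e⟩
    exact ⟨c, (hG m (by omega)).2 e⟩

open Classical in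
/-- **The Poisson law.** -/
theorem poisson_law {v : ℕ → ℤ} {d : ℕ} {P : ℤ[X]} (h : Vals v d P) (θ : ℝ) (hθ : 0 < θ)
    (x0 ε : ℝ) (hε : 0 < ε) :
    ∃ r0 : ℕ, ∀ r : ℕ, r0 ≤ r → ∀ᶠ X : ℕ in atTop, ∀ Y : ℕ, (X : ℝ) ^ θ ≤ Y → Y ≤ X →
      ∀ T : ℕ, T * V v r X ≤ x0 → ∀ A : Finset ℕ,
        |(((Finset.Ioc X (X + Y)).filter (fun n => Cnt v d r X n (n + T) ∈ A)).card : ℝ) -
          Y * ∑ j ∈ A, poisson (T * V v r X) j| ≤ ε * Y := by
  obtain ⟨r1, h1⟩ := poisson_all (fun _ : Fin 1 => P) h.sys h.noTr θ hθ x0 ε hε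
  obtain ⟨r4, h4⟩ := window_le (fun _ : Fin 1 => P) h.sys h.noTr x0
  refine ⟨r1 + r4 + 1, ?_⟩
  intro r hr
  filter_upwards [h1 r (by omega), h4 r (by omega), sf_AP _ h.sys r (by omega)] with X hX1 hX4 hap
  intro Y hXY hYX T hTx A
  rw [h.V_eq] at hX1 hX4
  have hG : ∀ m : ℕ, m ≤ 3 * X →
      (Sf (Q (fun _ : Fin 1 => P)) ⌊(X : ℝ) ^ (1 / (r : ℝ))⌋₊ m ↔ Good v d r X m) :=
    fun m hm => (hap m hm).trans (h.good r X m)
  have h5 := hX1 Y hXY T hTx A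
  have hTX := hX4 T hTx
  have hset : (Finset.Ioc X (X + Y)).filter
      (fun n => Np (fun _ : Fin 1 => P) ⌊(X : ℝ) ^ (1 / (r : ℝ))⌋₊ T n ∈ A) =
      (Finset.Ioc X (X + Y)).filter (fun n => Cnt v d r X n (n + T) ∈ A) := by
    ext n
    rw [mem_filter, mem_filter, mem_Ioc]
    constructor
    · rintro ⟨a, b⟩
      refine ⟨a, ?_⟩
      rw [← cnt_eq hG n (n + T) (by omega)]
      exact b
    · rintro ⟨a, b⟩
      refine ⟨a, ?_⟩
      rw [← cnt_eq hG n (n + T) (by omega)] at b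
      exact b
  rw [hset] at h5
  exact h5

open Classical in
/-- **The density in all windows.** -/
theorem all_windows {v : ℕ → ℤ} {d : ℕ} {P : ℤ[X]} (h : Vals v d P) (θ : ℝ) (hθ : 0 < θ)
    (ε : ℝ) (hε : 0 < ε) :
    ∃ (K : ℝ) (r0 : ℕ), 0 < K ∧ ∀ r : ℕ, r0 ≤ r → ∀ᶠ X : ℕ in atTop,
      ∀ Y : ℕ, (X : ℝ) ^ θ ≤ Y → Y ≤ X →
      (((Finset.Ioc X (X + Y)).filter (fun n => ¬ AllWindows v d r K ε X Y n)).card : ℝ) ≤ ε * Y ∧
      (((Finset.Ioc X (X + Y)).filter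
        (fun n => Good v d r X n ∧ ¬ AllWindows v d r K ε X Y n)).card : ℝ) ≤
        ε * (Y * V v r X) := by
  obtain ⟨K, r3, hK, h3⟩ := exact_poly (fun _ : Fin 1 => P) h.sys h.noTr θ hθ ε hε
  refine ⟨K, r3 + 1, hK, ?_⟩
  intro r hr
  filter_upwards [h3 r (by omega), sf_AP _ h.sys r (by omega)] with X hX3 hap
  intro Y hXY hYX
  rw [h.V_eq] at hX3
  have hG : ∀ m : ℕ, m ≤ 3 * X →
      (Sf (Q (fun _ : Fin 1 => P)) ⌊(X : ℝ) ^ (1 / (r : ℝ))⌋₊ m ↔ Good v d r X m) :=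
    fun m hm => (hap m hm).trans (h.good r X m)
  have hex : ∀ n : ℕ, Exact (Sf (Q (fun _ : Fin 1 => P)) ⌊(X : ℝ) ^ (1 / (r : ℝ))⌋₊)
      (V v r X) K ε X Y n ↔ AllWindows v d r K ε X Y n := by
    intro n
    unfold Exact AllWindows
    constructor
    · intro h u w a1 a2 a3 a4 a5
      have := h u w a1 a2 a3 a4 a5
      rwa [cnt_eq hG u w (by omega)] at this
    · intro h u w a1 a2 a3 a4 a5
      have := h u w a1 a2 a3 a4 a5
      rwa [← cnt_eq hG u w (by omega)] at this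
  constructor
  · have h5 := (hX3 Y hXY hYX).1
    have hset : (Finset.Ioc X (X + Y)).filter
        (fun n => ¬ Exact (Sf (Q (fun _ : Fin 1 => P)) ⌊(X : ℝ) ^ (1 / (r : ℝ))⌋₊)
          (V v r X) K ε X Y n) =
        (Finset.Ioc X (X + Y)).filter (fun n => ¬ AllWindows v d r K ε X Y n) := by
      ext n
      rw [mem_filter, mem_filter, hex n]
    rw [hset] at h5
    exact h5
  · have h5 := (hX3 Y hXY hYX).2
    have hset : (Finset.Ioc X (X + Y)).filter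
        (fun n => Sf (Q (fun _ : Fin 1 => P)) ⌊(X : ℝ) ^ (1 / (r : ℝ))⌋₊ n ∧
          ¬ Exact (Sf (Q (fun _ : Fin 1 => P)) ⌊(X : ℝ) ^ (1 / (r : ℝ))⌋₊) (V v r X) K ε X Y n) =
        (Finset.Ioc X (X + Y)).filter
          (fun n => Good v d r X n ∧ ¬ AllWindows v d r K ε X Y n) := by
      ext n
      rw [mem_filter, mem_filter, hex n, mem_Ioc]
      constructor
      · rintro ⟨a, b, c⟩
        exact ⟨a, (hG n (by omega)).1 b, c⟩
      · rintro ⟨a, b, c⟩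
        exact ⟨a, (hG n (by omega)).2 b, c⟩
    rw [hset] at h5
    exact h5

/-! ### Examples -/

/-- quadratic polynomials -/
lemma vals_quad (a b c : ℤ) (ha : 0 < a)
    (hg : ∀ p : ℕ, p.Prime → ¬ ((p : ℤ) ∣ a ∧ (p : ℤ) ∣ b ∧ (p : ℤ) ∣ c))
    (hpar : ¬ (Even (a + b) ∧ Even c)) (hD : ¬ IsSquare (b ^ 2 - 4 * a * c)) (v : ℕ → ℤ)
    (hv : ∀ m : ℕ, a * (m : ℤ) ^ 2 + b * m + c = v m) :
    Vals v 2 (Pool.Agent.TH464.PW.quad a b c) where
  irr := Pool.Agent.TH464.PW.quad_irr a b c ha.ne' hg hD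
  deg := Pool.Agent.TH464.PW.quad_deg a b c ha.ne'
  pos := by norm_num
  lead := by rw [Pool.Agent.TH464.PW.quad_lead a b c ha.ne']; exact ha
  val := fun m => by rw [Pool.Agent.TH464.PW.quad_eval]; exact hv m
  adm := fun p hp => by
    obtain ⟨m, hm⟩ := Pool.Agent.TH464.PW.quad_adm a b c hg hpar p hp
    refine ⟨m, ?_⟩
    rwa [Pool.Agent.TH464.PW.quad_eval, hv m] at hm

end Pool.Agent.Y175.PW
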