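import Pool.Agent.Y175.PW.Law
import Pool.Agent.Y175.PW.Cubic

set_option autoImplicit false

/-!
# The polynomials `X ^ 3 + k`
-/

namespace Pool.Agent.Y175.PW

lemma vals_cub {k : ℤ} (hk : ∀ a : ℤ, k ≠ a ^ 3) :
    Vals (fun m => (m : ℤ) ^ 3 + k) 3 (cub k) where
  irr := cub_irr hk
  deg := cub_deg k
  pos := by norm_num
  lead := by rw [(cub_monic k).leadingCoeff]; norm_num
  val := fun m => cub_eval k m
  adm := cub_adm k

end Pool.Agent.Y175.PW
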