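import Pool.Agent.TH977.PW.Inst

set_option autoImplicit false

/-!
# One quadratic polynomial, all arguments
-/

namespace Pool.Agent.Y175.PW

open Polynomial Finset Filter
open Pool.Agent.TH977.PW (N Irregular)

/-- a prime value is rough -/
lemma rough_of_prime (r m : ℕ) (v : ℤ) (hr : 2 ≤ r) (hm : 2 ≤ m) (hv : v.natAbs.Prime)
    (hle : m ≤ v.natAbs) (p : ℕ) (hp : p.Prime) (hd : (p : ℤ) ∣ v) :
    (m : ℝ) ^ (1 / (r : ℝ)) < (p : ℝ) := by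
  have h1 : p ∣ v.natAbs := Int.natCast_dvd.1 hd
  rw [(Nat.prime_dvd_prime_iff_eq hp hv).1 h1]
  exact Pool.Agent.TH977.PW.rpow_lt_of_le r m _ hr hm hle

/-- the values of a quadratic polynomial are large -/
lemma quad_large (a b c : ℤ) (ha : 0 < a) (m : ℕ) (hm : b.natAbs + c.natAbs + 2 ≤ m) :
    m ≤ (a * (m : ℤ) ^ 2 + b * m + c).natAbs := by
  have h1 : (b.natAbs : ℤ) + c.natAbs + 2 ≤ m := by exact_mod_cast hm
  have h2 : -(b.natAbs : ℤ) ≤ b := by omega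
  have h3 : -(c.natAbs : ℤ) ≤ c := by omega
  have h4 : (0 : ℤ) ≤ b.natAbs := by positivity
  have h5 : (0 : ℤ) ≤ c.natAbs := by positivity
  have hm0 : (0 : ℤ) ≤ m := by positivity
  have h6 : (m : ℤ) ^ 2 ≤ a * (m : ℤ) ^ 2 := by
    have : 0 ≤ (a - 1) * (m : ℤ) ^ 2 := mul_nonneg (by omega) (by positivity)
    linarith
  have h7 : -(b.natAbs : ℤ) * m ≤ b * m := mul_le_mul_of_nonneg_right h2 hm0
  have h8 : ((b.natAbs : ℤ) + c.natAbs + 2) * m ≤ (m : ℤ) * m := mul_le_mul_of_nonneg_right h1 hm0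
  have h9 : (c.natAbs : ℤ) * 1 ≤ (c.natAbs : ℤ) * m := mul_le_mul_of_nonneg_left (by omega) h5
  have h10 : (m : ℤ) ≤ a * (m : ℤ) ^ 2 + b * m + c := by nlinarith
  omega

/-- one admissible quadratic polynomial -/
theorem final_quad (a b c : ℤ) (ha : 0 < a)
    (hg : ∀ p : ℕ, p.Prime → ¬ ((p : ℤ) ∣ a ∧ (p : ℤ) ∣ b ∧ (p : ℤ) ∣ c))
    (hD : ¬ IsSquare (b ^ 2 - 4 * a * c)) (hpar : ¬ (Even (a + b) ∧ Even c))
    (R Al : ℕ → Set ℕ)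
    (hR : ∀ r m : ℕ, 2 ≤ r → m ∈ R r → ∀ p : ℕ, p.Prime → (p : ℤ) ∣ a * (m : ℤ) ^ 2 + b * m + c →
      (m : ℝ) ^ (1 / (r : ℝ)) < (p : ℝ))
    (hAl : ∀ r m : ℕ, 2 ≤ r → (∀ p : ℕ, p.Prime → (p : ℤ) ∣ a * (m : ℤ) ^ 2 + b * m + c →
      (m : ℝ) ^ (1 / (r : ℝ)) < (p : ℝ)) →
      (a * (m : ℤ) ^ 2 + b * m + c).natAbs.primeFactorsList.length ≤ r → m ∈ Al r)
    (θ : ℝ) (hθ : 0 < θ) (hθ1 : θ ≤ 1) :
    ∃ r0 : ℕ, 2 ≤ r0 ∧ ∀ r : ℕ, r0 ≤ r →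
    (∃ κ : ℝ, 0 < κ ∧ ∀ᶠ X : ℕ in atTop, ∀ Y : ℕ, (X : ℝ) ^ θ ≤ Y → Y ≤ X →
      κ * Y / Real.log X ≤ N (Al r) X (X + Y)) ∧
    ∀ ε : ℝ, 0 < ε → ∃ c : ℝ, 0 < c ∧ ∀ δ : ℝ, 0 < δ → ∃ B : ℕ,
      ∀ᶠ X : ℕ in atTop, ∀ Y : ℕ, (X : ℝ) ^ θ ≤ Y → 2 * Y ≤ X →
        ∀ A : Set ℕ, A ⊆ R r →
        (N (Irregular A 1 c δ B X Y) X (X + Y) : ℝ) ≤ ε * Y / Real.log X := by
  obtain ⟨r0, hr0, h0⟩ := Pool.Agent.TH977.PW.final
    (fun _ : Fin 1 => Pool.Agent.TH464.PW.quad a b c)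
    { irr := fun _ => Pool.Agent.TH464.PW.quad_irr a b c ha.ne' hg hD
      deg := fun _ => by rw [Pool.Agent.TH464.PW.quad_deg a b c ha.ne']; norm_num
      lead := fun _ => by rw [Pool.Agent.TH464.PW.quad_lead a b c ha.ne']; exact ha
      inj := Function.injective_of_subsingleton _
      adm := fun p hp => by
        obtain ⟨m, hm⟩ := Pool.Agent.TH464.PW.quad_adm a b c hg hpar p hp
        exact ⟨m, fun _ => hm⟩ } R Al 1 (by simp)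
    (fun r m h2r hm i p hp hd => hR r m h2r hm p hp (by
      rwa [Pool.Agent.TH464.PW.quad_eval] at hd))
    (fun r m h2r h1 h2 => hAl r m h2r (fun p hp hd => h1 0 p hp (by
      rwa [Pool.Agent.TH464.PW.quad_eval])) (by
      have := h2 0
      rwa [Pool.Agent.TH464.PW.quad_eval] at this)) θ hθ hθ1
  refine ⟨r0, hr0, fun r hr => ⟨?_, ?_⟩⟩
  · have := (h0 r hr).1
    simpa only [pow_one] using this
  · have := (h0 r hr).2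
    simpa only [pow_one] using this

end Pool.Agent.Y175.PW
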